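import Mathlib
import Pool.Agent.H51.Car.Defs
import Pool.Agent.H94.Car.P3b

/-!
# The carousel limit is the unique maximiser of the density of every carousel tournament

The definitions used by the statement (`Tour`, `IsCopy`, `dens`, `IsLimit`, `carousel`) are in
`Pool.Agent.H51.Car.Defs`.
-/

open Filter Topology

namespace Pool.Agent.Results.MP_380f92_co.CarouselUniqueness

open H51.Car

/-- The densities in the carousel tournaments `R_{2m+1}` converge, to a limit `φR`; and for every
`n ≥ 2` the value at `R_{2n+1}` is `4^{-n}`, and a limit `φ` maximises the density of `R_{2n+1}`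
among all limits of tournaments if and only if `φ = φR`. -/
theorem result :
    ∃ φR : (k : ℕ) → Tour k → ℝ,
      (∀ (k : ℕ) (T : Tour k), Tendsto (fun m => dens T (carousel m)) atTop (𝓝 (φR k T))) ∧
      IsLimit φR ∧
      ∀ n : ℕ, 2 ≤ n → φR (2 * n + 1) (carousel n) = (1 / 4) ^ n ∧
        ∀ φ : (k : ℕ) → Tour k → ℝ, IsLimit φ →
          ((∀ ψ : (k : ℕ) → Tour k → ℝ, IsLimit ψ →
              ψ (2 * n + 1) (carousel n) ≤ φ (2 * n + 1) (carousel n)) ↔ φ = φR) :=
  main

end Pool.Agent.Results.MP_380f92_co.CarouselUniqueness
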